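import Pool.Agent.H31.CF.U3

/-!
# The sum over the vectors with the kernel in terms of central values at a higher level
-/

set_option autoImplicit false

namespace Pool.Agent.H81.CFU

open MeasureTheory Set Filter
open Pool.Agent.H31.CN Pool.Agent.H91.CF Pool.Agent.H31.CF
open scoped Real Matrix MatrixGroups

theorem rd_mul_f1 (f : ℕ) : rd f * f1 f = f := by
  have h1 : rd f ∣ f := Nat.prod_primeFactors_dvd f
  unfold f1
  exact Nat.mul_div_cancel' h1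

theorem pf_FF1 (hKSM : T_KSM) (hVK : T_VK) (hVGR : T_VGR) (hACT : T_ACT) : T_FF1 := by
  intro f D Q hf hD hQ hgcd
  have hQ1 : 0 < Q.1 := hQ.1
  have hdsc : dsc Q = (D : ℤ) := hQ.2
  have hdscR : ((dsc Q : ℤ) : ℝ) = (D : ℝ) := by rw [hdsc]; norm_cast
  have hDR : (0 : ℝ) < D := by exact_mod_cast hD
  have hfR : (0 : ℝ) < f := by exact_mod_cast hf
  have hX : 0 < (f : ℝ) * Real.sqrt (dsc Q) := by
    rw [hdscR]
    exact mul_pos hfR (Real.sqrt_pos.2 hDR)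
  set X : ℝ := (f : ℝ) * Real.sqrt (dsc Q) with hXdef
  obtain ⟨C, hC, hV, -⟩ := hVK
  obtain ⟨K, hK⟩ := hVGR D (6 / X) hD (by positivity)
  have hpos : ∀ v : ℤ × ℤ, v ≠ 0 → 0 < val Q v := fun v hv =>
    ((hACT Q 1 1 v).2.2.2.2.2 D hD hQ).2 hv
  set Φ : ℤ × ℤ → ℝ := fun v => Vk (val Q v / X) / Real.sqrt (val Q v) with hΦ
  have hsum : Summable (fun v => |Φ v|) := by
    refine Summable.of_nonneg_of_le (fun v => abs_nonneg _) (fun v => ?_)
      ((hK Q hQ).1.mul_left C)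
    rcases eq_or_ne v 0 with rfl | hv
    · have h0 : val Q 0 = 0 := by simp [val]
      have h1 : Φ 0 = 0 := by
        simp only [hΦ, h0]
        simp
      rw [h1, abs_zero]
      positivity
    · have h1 := hpos v hv
      have h2 : (1 : ℝ) ≤ (val Q v : ℝ) := by exact_mod_cast h1
      have h3 : 1 ≤ Real.sqrt (val Q v) := by
        rw [Real.one_le_sqrt]
        exact h2
      have h4 : 0 < (val Q v : ℝ) / X := div_pos (by linarith) hX
      simp only [hΦ]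
      rw [abs_div, abs_of_pos (lt_of_lt_of_le one_pos h3)]
      calc |Vk (val Q v / X)| / Real.sqrt (val Q v) ≤ |Vk (val Q v / X)| :=
            div_le_self (abs_nonneg _) h3
        _ ≤ C * Real.exp (-(6 * ((val Q v : ℝ) / X))) := hV _ h4
        _ = C * Real.exp (-(6 / X * val Q v)) := by
            congr 3
            ring
  have hmain : F1 f Q = ∑' v, Φ v * kern f Q (1, 0) v := rfl
  rw [hmain, hKSM f Q Φ hf hgcd hsum]
  refine Finset.sum_congr rfl fun d hd => ?_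
  have hdg : d ∣ rd f := Nat.dvd_of_mem_divisors hd
  have hg0 : rd f ≠ 0 := (Nat.mem_divisors.1 hd).2
  have hd0 : 0 < d := Nat.pos_of_dvd_of_pos hdg (Nat.pos_of_ne_zero hg0)
  congr 1
  unfold Fgd
  obtain ⟨s, hs⟩ := hdg
  have hgd : rd f / d = s := by rw [hs]; exact Nat.mul_div_cancel_left s hd0
  rw [hgd]
  have hfilt : (Finset.range d).filter (fun j : ℕ => IsCoprime (Q.1 * (j : ℤ) ^ 2 +
            (f1 f : ℤ) * Q.2.1 * j + (f1 f : ℤ) ^ 2 * Q.2.2) (d : ℤ)) =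
      (Finset.range d).filter (fun j : ℕ => IsCoprime
        (val (Q.1, (f1 f : ℤ) * Q.2.1, (f1 f : ℤ) ^ 2 * Q.2.2) ((j : ℤ), 1)) (d : ℤ)) := by
    ext j
    rw [Finset.mem_filter, Finset.mem_filter]
    have h1 : val (Q.1, (f1 f : ℤ) * Q.2.1, (f1 f : ℤ) ^ 2 * Q.2.2) ((j : ℤ), 1) =
        Q.1 * (j : ℤ) ^ 2 + (f1 f : ℤ) * Q.2.1 * j + (f1 f : ℤ) ^ 2 * Q.2.2 := by
      simp only [val]
      ring
    rw [h1]
  have hsq : Real.sqrt ((rd f : ℝ) ^ 2 * ((f1 f : ℝ) ^ 2 * D)) = X := by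
    have h1 : (f : ℝ) = (rd f : ℝ) * (f1 f : ℝ) := by
      rw [← Nat.cast_mul, rd_mul_f1]
    have h2 : (rd f : ℝ) ^ 2 * ((f1 f : ℝ) ^ 2 * D) = (f : ℝ) ^ 2 * D := by
      rw [h1]
      ring
    rw [h2, hXdef, hdscR, Real.sqrt_mul (by positivity), Real.sqrt_sq hfR.le]
  have hterm : ∀ j : ℕ,
      ∑' v : ℤ × ℤ, Φ (d * v.1 + j * (s : ℕ) * v.2, (f1 f : ℤ) * (s : ℕ) * v.2) =
      zf ((d : ℝ) ^ 2 * (Q.1 : ℝ)) ((d : ℝ) * ((s : ℕ) : ℝ) *
        ((((f1 f : ℤ) * Q.2.1 : ℤ) : ℝ) + 2 * (Q.1 : ℝ) * j)) ((rd f : ℝ) ^ 2 *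
          ((f1 f : ℝ) ^ 2 * D)) := by
    intro j
    unfold zf
    refine tsum_congr fun v => ?_
    have hval : ((val Q (d * v.1 + j * (s : ℕ) * v.2, (f1 f : ℤ) * (s : ℕ) * v.2) : ℤ) : ℝ) =
        qd ((d : ℝ) ^ 2 * (Q.1 : ℝ)) ((d : ℝ) * ((s : ℕ) : ℝ) *
          ((((f1 f : ℤ) * Q.2.1 : ℤ) : ℝ) + 2 * (Q.1 : ℝ) * j)) ((rd f : ℝ) ^ 2 *
          ((f1 f : ℝ) ^ 2 * D)) v := by
      have hDD : (D : ℝ) = 4 * (Q.1 : ℝ) * (Q.2.2 : ℝ) - (Q.2.1 : ℝ) ^ 2 := by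
        rw [← hdscR]
        unfold dsc
        push_cast
        ring
      have hgR : (rd f : ℝ) = d * s := by rw [hs]; push_cast; ring
      have hQR : (Q.1 : ℝ) ≠ 0 := by exact_mod_cast hQ1.ne'
      have hdR : (d : ℝ) ≠ 0 := by exact_mod_cast hd0.ne'
      unfold qd val
      rw [hgR, hDD]
      push_cast
      field_simp
      ring
    rw [hsq, ← hval]
  rw [hfilt]
  exact Finset.sum_congr rfl fun j _ => hterm j

end Pool.Agent.H81.CFU
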