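import Pool.Agent.H91.CF.TA

/-!
# Densities of the types for forms with the last coefficient prime to the level
-/

set_option autoImplicit false

namespace Pool.Agent.H81.CF

open MeasureTheory Set Filter
open Pool.Agent.H31.CN Pool.Agent.H91.CF
open Pool.Agent.H96.CN (Av Per2 Per sum_crs sum_shift eq_of_dvd_sub)
open scoped Real

theorem nrt_sum (p : ℕ) (A B C : ℤ) : (nrt p A B C : ℝ) =
    ∑ j ∈ Finset.range p, if (p : ℤ) ∣ A * (j : ℤ) ^ 2 + B * (j : ℤ) + C then (1 : ℝ) else 0 := by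
  unfold nrt
  rw [Finset.card_filter]
  push_cast
  rfl

/-- completing the square -/
theorem nrt_odd (p : ℕ) (hp : p.Prime) (h2 : p ≠ 2) (A B C : ℤ) (hA : ¬ (p : ℤ) ∣ A) :
    nrt p A B C = nrt p 1 0 (4 * A * C - B ^ 2) := by
  have hpZ : Prime (p : ℤ) := Nat.prime_iff_prime_int.1 hp
  have h2' : ¬ (p : ℤ) ∣ 2 := by
    intro h
    have h3 : p ∣ 2 := by exact_mod_cast h
    have h4 := (Nat.prime_dvd_prime_iff_eq hp Nat.prime_two).1 h3
    exact h2 h4
  have h2A : ¬ (p : ℤ) ∣ 2 * A := fun h => (hpZ.dvd_or_dvd h).elim h2' hA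
  set D : ℤ := 4 * A * C - B ^ 2 with hD
  set F : ℤ → ℝ := fun z => if (p : ℤ) ∣ z ^ 2 + D then (1 : ℝ) else 0 with hF
  have hper : Per p F := by
    intro a b hab
    have h3 : (p : ℤ) ∣ (a ^ 2 + D) - (b ^ 2 + D) := by
      have : (a ^ 2 + D) - (b ^ 2 + D) = (a - b) * (a + b) := by ring
      rw [this]
      exact hab.mul_right _
    have h4 : (p : ℤ) ∣ a ^ 2 + D ↔ (p : ℤ) ∣ b ^ 2 + D :=
      ⟨fun h => (dvd_sub_right h).1 h3, fun h => (dvd_sub_left h).1 h3⟩
    simp only [hF, h4]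
  have key := sum_crs p hp.pos F hper (fun j => 2 * A * (j : ℤ) + B) (by
    intro i j hi hj h
    refine eq_of_dvd_sub hi hj ?_
    have h3 : (2 * A * (i : ℤ) + B) - (2 * A * (j : ℤ) + B) = (2 * A) * ((i : ℤ) - j) := by ring
    rw [h3] at h
    exact (hpZ.dvd_or_dvd h).resolve_left h2A)
  have h5 : (nrt p A B C : ℝ) = (nrt p 1 0 D : ℝ) := by
    rw [nrt_sum, nrt_sum]
    have h6 : ∑ j ∈ Finset.range p,
        (if (p : ℤ) ∣ A * (j : ℤ) ^ 2 + B * (j : ℤ) + C then (1 : ℝ) else 0) =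
        ∑ j ∈ Finset.range p, F (2 * A * (j : ℤ) + B) := by
      refine Finset.sum_congr rfl fun j _ => ?_
      have h7 : (2 * A * (j : ℤ) + B) ^ 2 + D = (2 * (2 * A)) * (A * (j : ℤ) ^ 2 + B * (j : ℤ) + C) := by
        rw [hD]; ring
      have h8 : (p : ℤ) ∣ A * (j : ℤ) ^ 2 + B * (j : ℤ) + C ↔
          (p : ℤ) ∣ (2 * A * (j : ℤ) + B) ^ 2 + D := by
        rw [h7]
        refine ⟨fun h => h.mul_left _, fun h => ?_⟩
        rcases hpZ.dvd_or_dvd h with h9 | h9
        · exact absurd ((hpZ.dvd_or_dvd h9).elim (fun h => absurd h h2') id) h2A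
        · exact h9
      simp only [hF, h8]
    rw [h6, key]
    refine Finset.sum_congr rfl fun j _ => ?_
    have h9 : (1 : ℤ) * (j : ℤ) ^ 2 + 0 * (j : ℤ) + D = (j : ℤ) ^ 2 + D := by ring
    rw [h9]
  exact_mod_cast h5

theorem nrt_two (A B C : ℤ) : nrt 2 A B C =
    (if (2 : ℤ) ∣ C then 1 else 0) + (if (2 : ℤ) ∣ A + B + C then 1 else 0) := by
  unfold nrt
  rw [Finset.card_filter, Finset.sum_range_succ, Finset.sum_range_one]
  simp

theorem nrt_one_zero (p : ℕ) (hp : p.Prime) (D : ℤ) (hD : (p : ℤ) ∣ D) : nrt p 1 0 D = 1 := by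
  have hpZ : Prime (p : ℤ) := Nat.prime_iff_prime_int.1 hp
  unfold nrt
  rw [Finset.card_eq_one]
  refine ⟨0, ?_⟩
  ext j
  rw [Finset.mem_filter, Finset.mem_range, Finset.mem_singleton]
  constructor
  · rintro ⟨h1, h2⟩
    have h3 : (p : ℤ) ∣ (j : ℤ) ^ 2 := by
      have : (1 : ℤ) * (j : ℤ) ^ 2 + 0 * (j : ℤ) + D = (j : ℤ) ^ 2 + D := by ring
      rw [this] at h2
      exact (dvd_add_left hD).1 h2
    have h4 : (p : ℤ) ∣ (j : ℤ) := hpZ.dvd_of_dvd_pow h3
    have h5 : p ∣ j := by exact_mod_cast h4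
    exact Nat.eq_zero_of_dvd_of_lt h5 h1
  · rintro rfl
    refine ⟨hp.pos, ?_⟩
    simpa using hD

/-- the number of roots on the support -/
theorem nrt_supp (f p A : ℕ) (B C τ : ℤ) (hf : 0 < f) (hp : p.Prime) (hpf : p ∣ f)
    (hA : ¬ p ∣ A) (h1 : sqp f p ∣ 4 * A * C - B ^ 2)
    (h2 : gdp p ((4 * A * C - B ^ 2) / sqp f p)) (h3 : ch p ((4 * A * C - B ^ 2) / sqp f p) = τ) :
    (p : ℤ) - (nrt p A B C : ℤ) = npt f p τ - 1 := by
  have hAZ : ¬ (p : ℤ) ∣ (A : ℤ) := fun h => hA (by exact_mod_cast h)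
  have hk1 : 1 ≤ f.factorization p := by
    have := (hp.dvd_iff_one_le_factorization hf.ne').1 hpf
    exact this
  by_cases hpp : p ^ 2 ∣ f
  · -- level divisible by the square
    have hk2 : 2 ≤ f.factorization p := (hp.pow_dvd_iff_le_factorization hf.ne').1 hpp
    have hs : (p : ℤ) ^ 2 ∣ sqp f p := by
      unfold sqp
      exact pow_dvd_pow _ (by omega)
    have hD2 : (p : ℤ) ^ 2 ∣ 4 * A * C - B ^ 2 := hs.trans h1
    have hn : nrt p A B C = 1 := by
      by_cases hp2 : p = 2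
      · subst hp2
        rw [nrt_two]
        have h4 : (4 : ℤ) ∣ 4 * A * C - B ^ 2 := by
          have : ((2 : ℕ) : ℤ) ^ 2 = 4 := by norm_num
          rw [← this]
          exact hD2
        have h5 : (2 : ℤ) ∣ B := by
          have h6 : (2 : ℤ) ∣ B ^ 2 := by
            have h7 : (2 : ℤ) ∣ 4 * A * C - B ^ 2 := (by norm_num : (2 : ℤ) ∣ 4).trans h4
            have h8 : (2 : ℤ) ∣ 4 * A * C := ⟨2 * A * C, by ring⟩
            exact (dvd_sub_right h8).1 h7
          exact Int.prime_two.dvd_of_dvd_pow h6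
        have hA2 : ¬ (2 : ℤ) ∣ (A : ℤ) := by exact_mod_cast hAZ
        by_cases hC : (2 : ℤ) ∣ C
        · rw [if_pos hC, if_neg (by omega)]
        · rw [if_neg hC, if_pos (by omega)]
      · rw [nrt_odd p hp hp2 A B C hAZ]
        exact nrt_one_zero p hp _ ((dvd_pow_self _ two_ne_zero).trans hD2)
    unfold npt
    rw [if_pos hpp, hn]
    push_cast
    ring
  · have hk : f.factorization p = 1 := by
      have : ¬ 2 ≤ f.factorization p := fun h => hpp ((hp.pow_dvd_iff_le_factorization hf.ne').2 h)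
      omega
    have hs : sqp f p = 1 := by
      unfold sqp
      rw [hk]
      simp
    rw [hs, Int.ediv_one] at h2 h3
    unfold npt
    rw [if_neg hpp]
    have hn : (nrt p A B C : ℤ) = 1 + τ := by
      rw [← h3]
      unfold ch
      by_cases hp2 : p = 2
      · subst hp2
        rw [if_pos rfl, nrt_two]
        have hA2 : ¬ (2 : ℤ) ∣ (A : ℤ) := by exact_mod_cast hAZ
        rcases Int.even_or_odd B with hB | hB
        · obtain ⟨b, rfl⟩ := hB
          have hD4 : (4 * A * C - (b + b) ^ 2) % 4 = 0 := by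
            have : 4 * A * C - (b + b) ^ 2 = 4 * (A * C - b ^ 2) := by ring
            rw [this]
            exact Int.mul_emod_right 4 _
          have hch : (if (4 * A * C - (b + b) ^ 2) % 8 = 7 then (1 : ℤ) else
              if (4 * A * C - (b + b) ^ 2) % 8 = 3 then -1 else 0) = 0 := by
            rw [if_neg (by omega), if_neg (by omega)]
          rw [hch]
          by_cases hC : (2 : ℤ) ∣ C
          · rw [if_pos hC, if_neg (by omega)]
            rfl
          · rw [if_neg hC, if_pos (by omega)]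
            rfl
        · obtain ⟨b, rfl⟩ := hB
          obtain ⟨c, hc⟩ : ∃ c : ℤ, b * (b + 1) = 2 * c := by
            rcases Int.even_mul_succ_self b with ⟨c, hc⟩
            exact ⟨c, by rw [hc]; ring⟩
          obtain ⟨a, ha⟩ : ∃ a : ℤ, (A : ℤ) = 2 * a + 1 := by
            refine ⟨(A : ℤ) / 2, by omega⟩
          have hD8 : 4 * (A : ℤ) * C - (2 * b + 1) ^ 2 = 8 * (a * C - c) + (4 * C - 1) := by
            rw [ha]
            have : (2 * b + 1) ^ 2 = 4 * (b * (b + 1)) + 1 := by ring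
            rw [this, hc]
            ring
          rw [hD8]
          rcases Int.even_or_odd C with hC | hC
          · obtain ⟨c', rfl⟩ := hC
            rw [if_pos (by omega), if_pos (by omega), if_pos (by omega)]
            rfl
          · obtain ⟨c', rfl⟩ := hC
            rw [if_neg (by omega), if_neg (by omega), if_neg (by omega), if_pos (by omega)]
            rfl
      · rw [if_neg hp2, nrt_odd p hp hp2 A B C hAZ]
        ring
    rw [hn]
    ring

open Classical in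
theorem pf_DNC (hTYP : T_TYP) (hTPR : T_TPR) : T_DNC := by
  intro f p A τ hf hp hpf hA hτ
  have hk1 : 1 ≤ f.factorization p := (hp.dvd_iff_one_le_factorization hf.ne').1 hpf
  set q : ℕ := qlp f p with hq
  have hq' : q = p ^ (2 * f.factorization p + 5) := by
    rw [hq]
    unfold qlp
    rw [if_pos hpf]
  have hq0 : 0 < q := by
    rw [hq']
    exact pow_pos hp.pos _
  have hpq : (p : ℤ) ∣ (q : ℤ) := by
    rw [hq']
    exact_mod_cast dvd_pow_self p (by omega)
  have hs0 : sqp f p ≠ 0 := by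
    unfold sqp
    exact pow_ne_zero _ (by exact_mod_cast hp.ne_zero)
  have hqs : (q : ℤ) = sqp f p * (p : ℤ) ^ 7 := by
    rw [hq']
    unfold sqp
    push_cast
    rw [← pow_add]
    congr 1
    omega
  set P : ℤ → Prop := fun D => sqp f p ∣ D ∧ gdp p (D / sqp f p) ∧ ch p (D / sqp f p) = τ with hP
  have hper1 : ∀ D D' : ℤ, (q : ℤ) ∣ D - D' → P D → P D' := by
    rintro D D' hDD ⟨h1, h2, h3⟩
    obtain ⟨x, rfl⟩ := h1
    obtain ⟨y, hy⟩ := hDD
    have hD' : D' = sqp f p * (x - (p : ℤ) ^ 7 * y) := by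
      have : D' = sqp f p * x - q * y := by linarith
      rw [this, hqs]
      ring
    rw [Int.mul_ediv_cancel_left _ hs0] at h2 h3
    have h4 := hTPR p x (x - (p : ℤ) ^ 7 * y) hp (by
      have : x - (x - (p : ℤ) ^ 7 * y) = (p : ℤ) ^ 7 * y := by ring
      rw [this]
      refine Dvd.dvd.mul_right (pow_dvd_pow _ ?_) _
      split_ifs <;> norm_num)
    refine ⟨⟨_, hD'⟩, ?_, ?_⟩
    · rw [hD', Int.mul_ediv_cancel_left _ hs0]
      exact h4.2.1.1 h2
    · rw [hD', Int.mul_ediv_cancel_left _ hs0, ← h4.1]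
      exact h3
  have hper : ∀ D D' : ℤ, (q : ℤ) ∣ D - D' → (P D ↔ P D') := fun D D' h =>
    ⟨hper1 D D' h, hper1 D' D ((dvd_sub_comm).1 h)⟩
  set G : ℤ → ℤ → ℝ := fun B C => if P (4 * A * C - B ^ 2) ∧ ¬ (p : ℤ) ∣ C then (1 : ℝ) else 0
    with hG
  have hGC : ∀ B : ℤ, Per q (fun C => G B C) := by
    intro B a b hab
    have h1 : P (4 * A * a - B ^ 2) ↔ P (4 * A * b - B ^ 2) := by
      refine hper _ _ ?_
      have : (4 * A * a - B ^ 2) - (4 * A * b - B ^ 2) = (a - b) * (4 * A) := by ring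
      rw [this]
      exact hab.mul_right _
    have h2 : (p : ℤ) ∣ a ↔ (p : ℤ) ∣ b := by
      have h3 := hpq.trans hab
      exact ⟨fun h => (dvd_sub_right h).1 h3, fun h => (dvd_sub_left h).1 h3⟩
    simp only [hG, h1, h2]
  have hGB : Per q (fun B => ∑ C ∈ Finset.range q, G B (C : ℤ)) := by
    intro a b hab
    refine Finset.sum_congr rfl fun C _ => ?_
    have h1 : P (4 * A * (C : ℤ) - a ^ 2) ↔ P (4 * A * (C : ℤ) - b ^ 2) := by
      refine hper _ _ ?_
      have : (4 * A * (C : ℤ) - a ^ 2) - (4 * A * (C : ℤ) - b ^ 2) = (a - b) * (-(a + b)) := by ring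
      rw [this]
      exact hab.mul_right _
    simp only [hG, h1]
  set S : ℝ := ∑ B ∈ Finset.range q, ∑ C ∈ Finset.range q, G (B : ℤ) (C : ℤ) with hS
  have hshift : ∀ j : ℕ, ∑ B ∈ Finset.range q, ∑ C ∈ Finset.range q,
      (if P (4 * A * (C : ℤ) - (B : ℤ) ^ 2) ∧ ¬ (p : ℤ) ∣ A * (j : ℤ) ^ 2 + B * (j : ℤ) + C
        then (1 : ℝ) else 0) = S := by
    intro j
    have h1 : ∀ B ∈ Finset.range q, ∑ C ∈ Finset.range q,
        (if P (4 * A * (C : ℤ) - (B : ℤ) ^ 2) ∧ ¬ (p : ℤ) ∣ A * (j : ℤ) ^ 2 + B * (j : ℤ) + C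
          then (1 : ℝ) else 0) =
        ∑ C ∈ Finset.range q, G ((B : ℤ) + 2 * A * j) (C : ℤ) := by
      intro B _
      rw [← sum_shift q hq0 (fun C => G ((B : ℤ) + 2 * A * j) C) (hGC _)
        (A * (j : ℤ) ^ 2 + B * (j : ℤ))]
      refine Finset.sum_congr rfl fun C _ => ?_
      have h2 : 4 * A * ((C : ℤ) + (A * (j : ℤ) ^ 2 + B * (j : ℤ))) - ((B : ℤ) + 2 * A * j) ^ 2 =
          4 * A * (C : ℤ) - (B : ℤ) ^ 2 := by ring
      have h3 : (C : ℤ) + (A * (j : ℤ) ^ 2 + B * (j : ℤ)) = A * (j : ℤ) ^ 2 + B * (j : ℤ) + C := by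
        ring
      simp only [hG]
      rw [h2, h3]
    rw [Finset.sum_congr rfl h1]
    exact sum_shift q hq0 (fun B => ∑ C ∈ Finset.range q, G B (C : ℤ)) hGB (2 * A * j)
  set T : ℝ := ∑ B ∈ Finset.range q, ∑ C ∈ Finset.range q,
    (if P (4 * A * (C : ℤ) - (B : ℤ) ^ 2) then (1 : ℝ) else 0) with hT
  have hmain : (p : ℝ) * S = ((npt f p τ : ℝ) - 1) * T := by
    have h1 : (p : ℝ) * S = ∑ j ∈ Finset.range p, ∑ B ∈ Finset.range q, ∑ C ∈ Finset.range q,
        (if P (4 * A * (C : ℤ) - (B : ℤ) ^ 2) ∧ ¬ (p : ℤ) ∣ A * (j : ℤ) ^ 2 + B * (j : ℤ) + C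
          then (1 : ℝ) else 0) := by
      rw [Finset.sum_congr rfl (fun j _ => hshift j), Finset.sum_const, Finset.card_range,
        nsmul_eq_mul]
    rw [h1, Finset.sum_comm, hT, Finset.mul_sum]
    refine Finset.sum_congr rfl fun B _ => ?_
    rw [Finset.sum_comm, Finset.mul_sum]
    refine Finset.sum_congr rfl fun C _ => ?_
    by_cases hPC : P (4 * A * (C : ℤ) - (B : ℤ) ^ 2)
    · have h2 := nrt_supp f p A B C τ hf hp hpf hA hPC.1 hPC.2.1 hPC.2.2
      have h3 : ((p : ℝ) - (nrt p A B C : ℝ)) = (npt f p τ : ℝ) - 1 := by exact_mod_cast h2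
      rw [if_pos hPC, mul_one, ← h3, nrt_sum]
      have h4 : (p : ℝ) = ∑ j ∈ Finset.range p, (1 : ℝ) := by simp
      have h5 : ∀ j ∈ Finset.range p,
          (if P (4 * A * (C : ℤ) - (B : ℤ) ^ 2) ∧ ¬ (p : ℤ) ∣ A * (j : ℤ) ^ 2 + B * (j : ℤ) + C
            then (1 : ℝ) else 0) =
          1 - (if (p : ℤ) ∣ A * (j : ℤ) ^ 2 + B * (j : ℤ) + C then (1 : ℝ) else 0) := by
        intro j _
        by_cases hj : (p : ℤ) ∣ A * (j : ℤ) ^ 2 + B * (j : ℤ) + C
        · rw [if_neg (fun h => h.2 hj), if_pos hj, sub_self]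
        · rw [if_pos ⟨hPC, hj⟩, if_neg hj, sub_zero]
      rw [Finset.sum_congr rfl h5, Finset.sum_sub_distrib]
      simp
    · rw [if_neg hPC, mul_zero]
      refine Finset.sum_eq_zero fun j _ => ?_
      rw [if_neg (fun h => hPC h.1)]
  have hp0 : (p : ℝ) ≠ 0 := by exact_mod_cast hp.ne_zero
  have hS' : S = (((npt f p τ : ℝ) - 1) / p) * T := by
    field_simp
    linarith
  show (1 / (q : ℝ) ^ 2) * S = (((npt f p τ : ℝ) - 1) / p) * ((1 / (q : ℝ) ^ 2) * T)
  rw [hS']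
  ring

end Pool.Agent.H81.CF
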