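import Pool.Agent.H95.CF.Targets

/-!
# The L-functions of the nontrivial primitive characters are entire
-/

set_option autoImplicit false

namespace Pool.Agent.H81.CF

open NumberField Module MeasureTheory Set Filter Pool.Agent.H31.CN Pool.Agent.H95.CF
open scoped nonZeroDivisors Real

theorem unique_off_one {F G : ℂ → ℂ} (hF : DifferentiableOn ℂ F {1}ᶜ)
    (hG : DifferentiableOn ℂ G {1}ᶜ) (h : ∀ s : ℂ, 1 < s.re → F s = G s) :
    ∀ s : ℂ, s ≠ 1 → F s = G s := by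
  have hopen : IsOpen ({1}ᶜ : Set ℂ) := isOpen_compl_singleton
  have hFa : AnalyticOnNhd ℂ F {1}ᶜ := hF.analyticOnNhd hopen
  have hGa : AnalyticOnNhd ℂ G {1}ᶜ := hG.analyticOnNhd hopen
  have hconn : IsPreconnected ({1}ᶜ : Set ℂ) :=
    (isConnected_compl_singleton_of_one_lt_rank (by
      rw [Complex.rank_real_complex]; norm_num) (1 : ℂ)).isPreconnected
  have h2 : (2 : ℂ) ∈ ({1}ᶜ : Set ℂ) := by
    simp
  have hev : F =ᶠ[nhds (2 : ℂ)] G := by
    have h3 : {s : ℂ | 1 < s.re} ∈ nhds (2 : ℂ) :=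
      (isOpen_lt continuous_const Complex.continuous_re).mem_nhds (by simp)
    filter_upwards [h3] with s hs
    exact h s hs
  have h4 := hFa.eqOn_of_preconnected_of_eventuallyEq hGa hconn h2 hev
  exact fun s hs => h4 hs

theorem pf_LFE (hREP : T_REP) (hLFN : T_LFN) : T_LFE := by
  intro D K _ _ f G _ _ cl φ F hD hfin hdis hpr hf hRG hP hφ hF
  obtain ⟨σ⟩ : Nonempty (K →+* ℂ) := inferInstance
  obtain ⟨Q, I, α, β, b, hFB⟩ := fb_exists D K σ hD hfin hdis hpr
  haveI : Fintype G := Fintype.ofFinite G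
  obtain ⟨F0, hF0, hE, -⟩ := hLFN D K σ Q I α β b f G cl φ hD hfin hdis hFB hf hRG hP
  obtain ⟨E, hE1, hE2⟩ := hE hφ
  refine ⟨E, hE1, fun s hs => ?_⟩
  rw [← hE2 s hs]
  exact unique_off_one hF0.1 hF.1 (fun s hs => (hF0.2 s hs).unique (hF.2 s hs)) s hs

end Pool.Agent.H81.CF
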